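import Pool.Agent.helper91.SI.Spec

set_option autoImplicit false

namespace Pool.Agent.helper91.SI

open Pool.Agent.helper20.IG (IsIndepDom IsISet iGraph)

theorem ca0_adj (hCYA : CYA_stmt) (n : ℕ) (hn : 3 ≤ n) (u v : Fin n) :
    (SimpleGraph.cycleGraph n).Adj u v ↔
      (u.val + 1 = v.val ∨ v.val + 1 = u.val ∨ (u.val = 0 ∧ v.val + 1 = n) ∨
        (v.val = 0 ∧ u.val + 1 = n)) := by
  have h := hCYA n hn u v
  have hu := u.2
  have hv := v.2
  rw [h]
  have key : ∀ a b : ℕ, a < n → b < n → ((a + 1) % n = b ↔ (a + 1 = b ∨ (b = 0 ∧ a + 1 = n))) := by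
    intro a b ha hb
    by_cases hc : a + 1 = n
    · rw [hc, Nat.mod_self]
      omega
    · rw [Nat.mod_eq_of_lt (by omega)]
      omega
  rw [key _ _ hu hv, key _ _ hv hu]
  omega

theorem ca0_card (hCYA : CYA_stmt) (n : ℕ) (hn : 6 ≤ n) (h3 : n % 3 = 0) (S : Finset (Fin n))
    (hS : IsISet (SimpleGraph.cycleGraph n) S) : 3 * S.card ≤ n := by
  classical
  let T : Finset (Fin n) := Finset.univ.filter fun x : Fin n => x.val % 3 = 0
  have hT : ∀ x : Fin n, x ∈ T ↔ x.val % 3 = 0 := by
    intro x
    simp [T]
  have h1 : IsIndepDom (SimpleGraph.cycleGraph n) T := by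
    refine ⟨?_, ?_⟩
    · intro u hu v hv hadj
      rw [ca0_adj hCYA n (by omega)] at hadj
      rw [hT] at hu hv
      omega
    · intro v hv
      rw [hT] at hv
      have hvn := v.2
      by_cases h4 : v.val % 3 = 1
      · refine ⟨⟨v.val - 1, by omega⟩, (hT _).2 (by simp only; omega), ?_⟩
        rw [ca0_adj hCYA n (by omega)]
        simp only
        omega
      · by_cases h5 : v.val + 1 = n
        · refine ⟨⟨0, by omega⟩, (hT _).2 (by simp), ?_⟩
          rw [ca0_adj hCYA n (by omega)]
          simp only [true_and]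
          omega
        · refine ⟨⟨v.val + 1, by omega⟩, (hT _).2 (by simp only; omega), ?_⟩
          rw [ca0_adj hCYA n (by omega)]
          simp
  have h2 := hS.2 T h1
  have h4 : T.card ≤ (Finset.range (n / 3)).card := by
    refine Finset.card_le_card_of_injOn (fun x : Fin n => x.val / 3) ?_ ?_
    · intro x hx
      have hxn := x.2
      have hx' := (hT x).1 (by simpa using hx)
      simp only [Finset.coe_range, Set.mem_Iio]
      omega
    · intro x hx y hy hxy
      have hx' := (hT x).1 (by simpa using hx)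
      have hy' := (hT y).1 (by simpa using hy)
      simp only at hxy
      apply Fin.ext
      omega
  rw [Finset.card_range] at h4
  omega

theorem ca0_noslide (hCYA : CYA_stmt) (n : ℕ) (hn : 6 ≤ n) (h3 : n % 3 = 0)
    (X Y : Finset (Fin n)) (hX : IsISet (SimpleGraph.cycleGraph n) X)
    (hY : IsISet (SimpleGraph.cycleGraph n) Y) (u v : Fin n) (hu : u ∈ X)
    (huv : (SimpleGraph.cycleGraph n).Adj u v) (hXY : Y = insert v (X.erase u)) : False := by
  classical
  have hcard := ca0_card hCYA n hn h3 X hX
  let nx : Fin n → Fin n := fun s => ⟨if s.val + 1 = n then 0 else s.val + 1, by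
    have := s.2
    split_ifs <;> omega⟩
  let pv : Fin n → Fin n := fun s => ⟨if s.val = 0 then n - 1 else s.val - 1, by
    have := s.2
    split_ifs <;> omega⟩
  have hadj : ∀ s y : Fin n, (SimpleGraph.cycleGraph n).Adj s y → y = nx s ∨ y = pv s := by
    intro s y hsy
    rw [ca0_adj hCYA n (by omega)] at hsy
    have hs := s.2
    have hy := y.2
    simp only [nx, pv, Fin.ext_iff]
    split_ifs <;> omega
  let M : Fin n → Finset (Fin n) := fun s => if s = u then {u, v} else {s, nx s, pv s}
  have hMu : (M u).card ≤ 2 := by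
    simp only [M, if_pos]
    exact Finset.card_le_two
  have hMs : ∀ s, s ≠ u → (M s).card ≤ 3 := by
    intro s hs
    simp only [M, if_neg hs]
    exact Finset.card_le_three
  have hself : ∀ s, s ∈ M s := by
    intro s
    simp only [M]
    split_ifs with h
    · simp [h]
    · simp
  have hnb : ∀ s y, s ≠ u → (SimpleGraph.cycleGraph n).Adj s y → y ∈ M s := by
    intro s y hs hsy
    simp only [M, if_neg hs]
    rcases hadj s y hsy with h | h <;> simp [h]
  have hcov : (Finset.univ : Finset (Fin n)) ⊆ X.biUnion M := by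
    intro y _
    rw [Finset.mem_biUnion]
    by_cases hy : y ∈ X
    · exact ⟨y, hy, hself y⟩
    · obtain ⟨s, hs, hsy⟩ := hX.1.2 y hy
      by_cases hsu : s = u
      · subst hsu
        by_cases hyv : y = v
        · refine ⟨s, hs, ?_⟩
          simp [M, hyv]
        · have hyY : y ∉ Y := by
            rw [hXY]
            intro h
            rcases Finset.mem_insert.1 h with h | h
            · exact hyv h
            · exact hy (Finset.mem_of_mem_erase h)
          obtain ⟨t, ht, hty⟩ := hY.1.2 y hyY
          rw [hXY] at ht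
          rcases Finset.mem_insert.1 ht with h | h
          · exfalso
            rw [h] at hty
            rw [ca0_adj hCYA n (by omega)] at hty huv hsy
            have := y.2
            have := v.2
            have := s.2
            omega
          · exact ⟨t, Finset.mem_of_mem_erase h, hnb t y (Finset.ne_of_mem_erase h) hty⟩
      · exact ⟨s, hs, hnb s y hsu hsy⟩
  have h1 := Finset.card_le_card hcov
  rw [Finset.card_univ, Fintype.card_fin] at h1
  have h2 : (X.biUnion M).card ≤ ∑ s ∈ X, (M s).card := Finset.card_biUnion_le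
  rw [← Finset.add_sum_erase X (fun s => (M s).card) hu] at h2
  have h4 : ∑ s ∈ X.erase u, (M s).card ≤ (X.erase u).card * 3 := by
    rw [← smul_eq_mul]
    refine Finset.sum_le_card_nsmul _ _ _ ?_
    intro s hs
    exact hMs s (Finset.ne_of_mem_erase hs)
  rw [Finset.card_erase_of_mem hu] at h4
  have h5 : 0 < X.card := Finset.card_pos.2 ⟨u, hu⟩
  omega

theorem CA0 (hCYA : CYA_stmt) : CA0_stmt := by
  intro n hn h3
  refine ⟨fun f => ?_⟩
  have h01 : (SimpleGraph.cycleGraph n).Adj (⟨0, by omega⟩ : Fin n) (⟨1, by omega⟩ : Fin n) := by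
    rw [ca0_adj hCYA n (by omega)]
    simp
  have h1 := f.symm.map_adj_iff.2 h01
  obtain ⟨_, u, hu, v, _, huv, hY⟩ := h1
  exact ca0_noslide hCYA n hn h3 _ _ (f.symm _).2 (f.symm _).2 u v hu huv hY

end Pool.Agent.helper91.SI
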