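import Pool.Agent.helper91.SI.Spec

set_option autoImplicit false

namespace Pool.Agent.helper91.SI

open Pool.Agent.helper20.IG (IsIndepDom IsISet iGraph)

theorem ca1_adj (hCYA : CYA_stmt) (n : ℕ) (hn : 10 ≤ n) (u v : Fin n) :
    (SimpleGraph.cycleGraph n).Adj u v ↔
      (u.val + 1 = v.val ∨ v.val + 1 = u.val ∨ (u.val = 0 ∧ v.val + 1 = n) ∨
        (v.val = 0 ∧ u.val + 1 = n)) := by
  have h := hCYA n (by omega) u v
  have hu := u.2
  have hv := v.2
  rw [h]
  have key : ∀ a b : ℕ, a < n → b < n → ((a + 1) % n = b ↔ (a + 1 = b ∨ (b = 0 ∧ a + 1 = n))) := by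
    intro a b ha hb
    by_cases hc : a + 1 = n
    · rw [hc, Nat.mod_self]
      omega
    · rw [Nat.mod_eq_of_lt (by omega)]
      omega
  rw [key _ _ hu hv, key _ _ hv hu]
  omega

theorem ca1_iset (hCYA : CYA_stmt) (hLBD : LBD_stmt) (hCTT : CTT_stmt) (n : ℕ) (hn : 10 ≤ n)
    (h3 : n % 3 = 1) (T : Finset (Fin n)) (P : ℕ → Prop) (hP : ∀ x : Fin n, x ∈ T ↔ P x.val)
    (hind : ∀ a b : ℕ, a < n → b < n → P a → P b → a + 1 ≠ b ∧ ¬ (a = 0 ∧ b + 1 = n))
    (hdom : ∀ a, a < n → ¬ P a → ∃ b, b < n ∧ P b ∧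
      (b + 1 = a ∨ a + 1 = b ∨ (b = 0 ∧ a + 1 = n) ∨ (a = 0 ∧ b + 1 = n)))
    (hcard : 3 * T.card ≤ n + 2) : IsISet (SimpleGraph.cycleGraph n) T := by
  refine ⟨⟨?_, ?_⟩, ?_⟩
  · intro u hu v hv hadj
    rw [ca1_adj hCYA n hn] at hadj
    have h1 := hind u.val v.val u.2 v.2 ((hP u).1 hu) ((hP v).1 hv)
    have h2 := hind v.val u.val v.2 u.2 ((hP v).1 hv) ((hP u).1 hu)
    omega
  · intro v hv
    obtain ⟨b, hb, hPb, hab⟩ := hdom v.val v.2 (fun h => hv ((hP v).2 h))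
    refine ⟨⟨b, hb⟩, (hP ⟨b, hb⟩).2 hPb, ?_⟩
    rw [ca1_adj hCYA n hn]
    exact hab
  · intro T' hT'
    have h1 := hLBD (Fin n) (SimpleGraph.cycleGraph n) (hCTT n (by omega)) T' hT'
    rw [Fintype.card_fin] at h1
    omega

theorem CA1 (hCYA : CYA_stmt) (hLBD : LBD_stmt) (hCTT : CTT_stmt) : CA1_stmt := by
  intro n hn h3
  classical
  have l0 : 0 < n := by omega
  have l2 : 2 < n := by omega
  have l3 : 3 < n := by omega
  have l4 : 4 < n := by omega
  have l5 : 5 < n := by omega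
  have ln : n - 1 < n := by omega
  let T : Finset (Fin n) := Finset.univ.filter fun x : Fin n =>
    x.val = 0 ∨ x.val = 2 ∨ x.val = 5 ∨ (7 ≤ x.val ∧ x.val % 3 = 1 ∧ x.val + 3 ≤ n)
  have hT : ∀ x : Fin n, x ∈ T ↔
      (x.val = 0 ∨ x.val = 2 ∨ x.val = 5 ∨ (7 ≤ x.val ∧ x.val % 3 = 1 ∧ x.val + 3 ≤ n)) := by
    intro x
    simp [T]
  have cT : 3 * T.card ≤ n + 2 := by
    have h1 : T.card ≤ (Finset.range ((n + 2) / 3)).card := by
      refine Finset.card_le_card_of_injOn (fun x : Fin n => (x.val + 2) / 3) ?_ ?_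
      · intro x hx
        have hx' := (hT x).1 (by simpa using hx)
        have hxn := x.2
        simp only [Finset.coe_range, Set.mem_Iio]
        omega
      · intro x hx y hy hxy
        have hx' := (hT x).1 (by simpa using hx)
        have hy' := (hT y).1 (by simpa using hy)
        simp only at hxy
        apply Fin.ext
        omega
    rw [Finset.card_range] at h1
    omega
  -- general facts on exchanges
  have ex : ∀ s v : Fin n, s ∈ T → v ∉ T → (insert v (T.erase s)).card = T.card := by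
    intro s v hs hv
    have h1 : v ∉ T.erase s := fun h => hv (Finset.mem_of_mem_erase h)
    rw [Finset.card_insert_of_notMem h1, Finset.card_erase_of_mem hs]
    have : 0 < T.card := Finset.card_pos.2 ⟨s, hs⟩
    omega
  have s0 : (⟨0, l0⟩ : Fin n) ∈ T := (hT _).2 (by simp)
  have s2 : (⟨2, l2⟩ : Fin n) ∈ T := (hT _).2 (by simp)
  have s5 : (⟨5, l5⟩ : Fin n) ∈ T := (hT _).2 (by simp)
  have vn : (⟨n - 1, ln⟩ : Fin n) ∉ T := by
    rw [hT]
    simp only
    omega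
  have v3 : (⟨3, l3⟩ : Fin n) ∉ T := by
    rw [hT]
    simp only
    omega
  have v4 : (⟨4, l4⟩ : Fin n) ∉ T := by
    rw [hT]
    simp only
    omega
  have mem : ∀ s v x : Fin n, x ∈ insert v (T.erase s) ↔
      (x.val = v.val ∨ (x.val ≠ s.val ∧ (x.val = 0 ∨ x.val = 2 ∨ x.val = 5 ∨
        (7 ≤ x.val ∧ x.val % 3 = 1 ∧ x.val + 3 ≤ n)))) := by
    intro s v x
    rw [Finset.mem_insert, Finset.mem_erase, hT, Fin.ext_iff, Ne, Fin.ext_iff]
  have iT : IsISet (SimpleGraph.cycleGraph n) T := by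
    refine ca1_iset hCYA hLBD hCTT n hn h3 T (fun x => (x = 0 ∨ x = 2 ∨ x = 5 ∨ (7 ≤ x ∧ x % 3 = 1 ∧ x + 3 ≤ n))) hT ?_ ?_ cT
    · intro a b ha hb hPa hPb
      omega
    · intro a ha hPa
      by_cases h1 : a ≤ 6
      · have h2 : a = 1 ∨ a = 3 ∨ a = 4 ∨ a = 6 := by omega
        rcases h2 with h | h | h | h
        · exact ⟨0, by omega, by omega, by omega⟩
        · exact ⟨2, by omega, by omega, by omega⟩
        · exact ⟨5, by omega, by omega, by omega⟩
        · exact ⟨5, by omega, by omega, by omega⟩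
      · by_cases h2 : a + 1 = n
        · exact ⟨0, by omega, by omega, by omega⟩
        · by_cases h4 : a % 3 = 2
          · exact ⟨a - 1, by omega, by omega, by omega⟩
          · exact ⟨a + 1, by omega, by omega, by omega⟩
  have i0 : IsISet (SimpleGraph.cycleGraph n) (insert (⟨n - 1, ln⟩ : Fin n) (T.erase ⟨0, l0⟩)) := by
    refine ca1_iset hCYA hLBD hCTT n hn h3 _ (fun x => x = n - 1 ∨ (x ≠ 0 ∧ (x = 0 ∨ x = 2 ∨ x = 5 ∨ (7 ≤ x ∧ x % 3 = 1 ∧ x + 3 ≤ n))))
      (mem ⟨0, l0⟩ ⟨n - 1, ln⟩) ?_ ?_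
      (by rw [ex _ _ s0 vn]; exact cT)
    · intro a b ha hb hPa hPb
      omega
    · intro a ha hPa
      by_cases h1 : a ≤ 6
      · have h2 : a = 0 ∨ a = 1 ∨ a = 3 ∨ a = 4 ∨ a = 6 := by omega
        rcases h2 with h | h | h | h | h
        · exact ⟨n - 1, by omega, by simp, by omega⟩
        · exact ⟨2, by omega, by simp, by omega⟩
        · exact ⟨2, by omega, by simp, by omega⟩
        · exact ⟨5, by omega, by simp, by omega⟩
        · exact ⟨5, by omega, by simp, by omega⟩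
      · by_cases h2 : a + 2 = n
        · exact ⟨n - 1, by omega, by simp, by omega⟩
        · by_cases h4 : a % 3 = 2
          · exact ⟨a - 1, by omega, by omega, by omega⟩
          · exact ⟨a + 1, by omega, by omega, by omega⟩
  have i2 : IsISet (SimpleGraph.cycleGraph n) (insert (⟨3, l3⟩ : Fin n) (T.erase ⟨2, l2⟩)) := by
    refine ca1_iset hCYA hLBD hCTT n hn h3 _ (fun x => x = 3 ∨ (x ≠ 2 ∧ (x = 0 ∨ x = 2 ∨ x = 5 ∨ (7 ≤ x ∧ x % 3 = 1 ∧ x + 3 ≤ n))))
      (mem ⟨2, l2⟩ ⟨3, l3⟩) ?_ ?_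
      (by rw [ex _ _ s2 v3]; exact cT)
    · intro a b ha hb hPa hPb
      omega
    · intro a ha hPa
      by_cases h1 : a ≤ 6
      · have h2 : a = 1 ∨ a = 2 ∨ a = 4 ∨ a = 6 := by omega
        rcases h2 with h | h | h | h
        · exact ⟨0, by omega, by simp, by omega⟩
        · exact ⟨3, by omega, by simp, by omega⟩
        · exact ⟨3, by omega, by simp, by omega⟩
        · exact ⟨5, by omega, by simp, by omega⟩
      · by_cases h2 : a + 1 = n
        · exact ⟨0, by omega, by simp, by omega⟩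
        · by_cases h4 : a % 3 = 2
          · exact ⟨a - 1, by omega, by omega, by omega⟩
          · exact ⟨a + 1, by omega, by omega, by omega⟩
  have i5 : IsISet (SimpleGraph.cycleGraph n) (insert (⟨4, l4⟩ : Fin n) (T.erase ⟨5, l5⟩)) := by
    refine ca1_iset hCYA hLBD hCTT n hn h3 _ (fun x => x = 4 ∨ (x ≠ 5 ∧ (x = 0 ∨ x = 2 ∨ x = 5 ∨ (7 ≤ x ∧ x % 3 = 1 ∧ x + 3 ≤ n))))
      (mem ⟨5, l5⟩ ⟨4, l4⟩) ?_ ?_
      (by rw [ex _ _ s5 v4]; exact cT)
    · intro a b ha hb hPa hPb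
      omega
    · intro a ha hPa
      by_cases h1 : a ≤ 6
      · have h2 : a = 1 ∨ a = 3 ∨ a = 5 ∨ a = 6 := by omega
        rcases h2 with h | h | h | h
        · exact ⟨0, by omega, by simp, by omega⟩
        · exact ⟨2, by omega, by simp, by omega⟩
        · exact ⟨4, by omega, Or.inl rfl, by omega⟩
        · exact ⟨7, by omega, by omega, by omega⟩
      · by_cases h2 : a + 1 = n
        · exact ⟨0, by omega, by simp, by omega⟩
        · by_cases h4 : a % 3 = 2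
          · exact ⟨a - 1, by omega, by omega, by omega⟩
          · exact ⟨a + 1, by omega, by omega, by omega⟩
  have adj : ∀ (s v : Fin n) (hi : IsISet (SimpleGraph.cycleGraph n) (insert v (T.erase s))),
      s ∈ T → v ∉ T → (SimpleGraph.cycleGraph n).Adj s v →
      (iGraph (SimpleGraph.cycleGraph n)).Adj ⟨T, iT⟩ ⟨insert v (T.erase s), hi⟩ := by
    intro s v hi hs hv hadj
    refine ⟨?_, s, hs, v, Finset.mem_insert_self _ _, hadj, rfl⟩
    intro h
    apply hv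
    have h1 : T = insert v (T.erase s) := congrArg Subtype.val h
    rw [h1]
    exact Finset.mem_insert_self _ _
  refine ⟨⟨T, iT⟩, ⟨_, i0⟩, ⟨_, i2⟩, ⟨_, i5⟩, adj _ _ i0 s0 vn ?_, adj _ _ i2 s2 v3 ?_,
    adj _ _ i5 s5 v4 ?_, ?_, ?_, ?_⟩
  · rw [ca1_adj hCYA n hn]
    simp only [true_and]
    omega
  · rw [ca1_adj hCYA n hn]
    simp
  · rw [ca1_adj hCYA n hn]
    simp
  · intro h
    have h1 : insert (⟨n - 1, ln⟩ : Fin n) (T.erase ⟨0, l0⟩) = insert (⟨3, l3⟩ : Fin n)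
      (T.erase ⟨2, l2⟩) := congrArg Subtype.val h
    have h2 : (⟨3, l3⟩ : Fin n) ∈ insert (⟨n - 1, ln⟩ : Fin n) (T.erase ⟨0, l0⟩) := by
      rw [h1]
      exact Finset.mem_insert_self _ _
    rw [mem] at h2
    simp only at h2
    omega
  · intro h
    have h1 : insert (⟨n - 1, ln⟩ : Fin n) (T.erase ⟨0, l0⟩) = insert (⟨4, l4⟩ : Fin n)
      (T.erase ⟨5, l5⟩) := congrArg Subtype.val h
    have h2 : (⟨4, l4⟩ : Fin n) ∈ insert (⟨n - 1, ln⟩ : Fin n) (T.erase ⟨0, l0⟩) := by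
      rw [h1]
      exact Finset.mem_insert_self _ _
    rw [mem] at h2
    simp only at h2
    omega
  · intro h
    have h1 : insert (⟨3, l3⟩ : Fin n) (T.erase ⟨2, l2⟩) = insert (⟨4, l4⟩ : Fin n)
      (T.erase ⟨5, l5⟩) := congrArg Subtype.val h
    have h2 : (⟨4, l4⟩ : Fin n) ∈ insert (⟨3, l3⟩ : Fin n) (T.erase ⟨2, l2⟩) := by
      rw [h1]
      exact Finset.mem_insert_self _ _
    rw [mem] at h2
    simp only at h2
    omega

end Pool.Agent.helper91.SI
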