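import Pool.Agent.helper91.SI.Spec

set_option autoImplicit false

namespace Pool.Agent.helper91.SI

open Pool.Agent.helper20.IG (IsIndepDom IsISet iGraph)

theorem CYA : CYA_stmt := by
  intro n hn u v
  have hu := u.2
  have hv := v.2
  have key : ∀ a b : Fin n, (a - b).val = 1 ↔ (b.val + 1) % n = a.val := by
    intro a b
    have ha := a.2
    have hb := b.2
    rw [Fin.sub_def]
    have h1 : (n - b.val + a.val) % n = if b.val ≤ a.val then a.val - b.val
        else n - b.val + a.val := by
      split_ifs with h
      · rw [show n - b.val + a.val = n + (a.val - b.val) by omega, Nat.add_mod_left,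
          Nat.mod_eq_of_lt (by omega)]
      · exact Nat.mod_eq_of_lt (by omega)
    have h2 : (b.val + 1) % n = if b.val + 1 = n then 0 else b.val + 1 := by
      split_ifs with h
      · rw [h, Nat.mod_self]
      · exact Nat.mod_eq_of_lt (by omega)
    simp only
    rw [h1, h2]
    split_ifs <;> omega
  rw [SimpleGraph.cycleGraph_adj', key, key]
  exact or_comm

end Pool.Agent.helper91.SI
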