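import Pool.Agent.helper91.SI.Spec

set_option autoImplicit false

namespace Pool.Agent.helper91.SI

open Pool.Agent.helper20.IG (IsIndepDom IsISet iGraph)

theorem SLD : SLD_stmt := by
  intro V _ G S s v hT hS
  obtain ⟨hS1, hs, hv, hsv, hS2⟩ := hS
  refine ⟨?_, ?_⟩
  · intro t ht htv
    by_contra hts
    exact hS2.1.1 t (Finset.mem_insert_of_mem (Finset.mem_erase.2 ⟨hts, ht⟩)) v
      (Finset.mem_insert_self _ _) htv
  · intro x hsx hxv
    have hxS : x ∉ S := fun h => hS1.1.1 s hs x h hsx
    have hxS' : x ∉ insert v (S.erase s) := by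
      intro h
      rcases Finset.mem_insert.1 h with h | h
      · exact hxv h
      · exact hxS (Finset.mem_of_mem_erase h)
    obtain ⟨t, ht, htx⟩ := hS2.1.2 x hxS'
    rcases Finset.mem_insert.1 ht with h | h
    · exact absurd (hT s v x hsv (h ▸ htx) hsx) id
    · exact ⟨t, Finset.mem_of_mem_erase h, Finset.ne_of_mem_erase h, htx⟩

end Pool.Agent.helper91.SI
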